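import Pool.Agent.H361R2.PA.First

set_option autoImplicit false
set_option maxHeartbeats 4000000

namespace Pool.Agent.Results.MP_c6d112_nt.FirstTwinPrimes

/-- twin primes in the sense of the problem: `p` prime and `p + 2` or `p - 2` prime -/
def Twin (p : ℕ) : Prop := p.Prime ∧ ((p + 2).Prime ∨ (p - 2).Prime)

open Classical in
/-- for all large `X` some even `n` in `(X, 2X]` is such that in every representation `n = p + q`
with `p` prime and `q` a twin prime there are more than `c log X log log X` twin primes below `q` -/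
theorem result : ∃ c : ℝ, 0 < c ∧ ∃ X₀ : ℝ, ∀ X : ℝ, X₀ ≤ X →
    ∃ n : ℕ, X < n ∧ (n : ℝ) ≤ 2 * X ∧ Even n ∧
      ∀ p q : ℕ, p.Prime → Twin q → p + q = n →
        c * (Real.log X * Real.log (Real.log X)) < ((Finset.range q).filter Twin).card := by
  obtain ⟨c, hc, X₀, h⟩ := Pool.Agent.H361R2.PA.first_elements 2 (by norm_num) 0
  refine ⟨c, hc, X₀, fun X hX => ?_⟩
  obtain ⟨N, hN1, hN2, hN3, hN4⟩ := h X hX Twin
  have h2 := hN3 2 Nat.prime_two (dvd_refl 2)
  refine ⟨N, hN1, hN2, ?_, ?_⟩
  · rw [Nat.even_iff]; omega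
  · intro p q hp hq hpq
    have h3 := hN4 p q hp hpq hq
    rw [Nat.count_eq_card_filter_range] at h3
    exact h3

end Pool.Agent.Results.MP_c6d112_nt.FirstTwinPrimes
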