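import Pool.Agent.H378R2.PT.Least
import Pool.Agent.H357R2.SI.PairFinal

set_option autoImplicit false

/-! # Late first twin prime summands

Design and assembly: helper378.  Covering theorem: helper256 and the authors of
`Pool.Agent.H256R2.SC`; integers without medium prime factors: helper674; sieve bound for twin
primes: helper357. -/

namespace Pool.Agent.Results.MP_c6d112_nt.LeastTwinSummand

open Finset

/-- twin primes in the sense of the problem -/
def Twin (q : ℕ) : Prop := q.Prime ∧ ((q + 2).Prime ∨ (q - 2).Prime)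

open Classical in
theorem twin_count : ∃ C : ℝ, 0 < C ∧ ∃ Q₀ : ℕ, ∀ Q : ℕ, Q₀ ≤ Q →
    (((range (Q + 1)).filter Twin).card : ℝ) ≤ C * Q / (Real.log Q) ^ 2 := by
  obtain ⟨C, hC, u0, h⟩ := Pool.Agent.H357R2.SI.pair_sieve
  have hsg := Pool.Agent.H357R2.SI.one_le_sg (h := 2) (by norm_num)
  refine ⟨2 * (C * Pool.Agent.H357R2.SI.sg 2 ^ 2), by positivity, u0, fun Q hQ => ?_⟩
  have h1 := h 2 0 Q (by norm_num) hQ
  obtain ⟨S, hS⟩ : ∃ S : Finset ℕ, S = (Finset.Ioc 0 (0 + Q)).filter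
    (fun n => n.Prime ∧ (n + 2).Prime) := ⟨_, rfl⟩
  have h2 : (range (Q + 1)).filter Twin ⊆ S ∪ S.image (fun n => n + 2) := by
    intro q hq
    rw [Finset.mem_filter, Finset.mem_range] at hq
    obtain ⟨hq1, hq2, hq3⟩ := hq
    rw [Finset.mem_union, Finset.mem_image]
    rcases hq3 with h3 | h3
    · left
      rw [hS, Finset.mem_filter, Finset.mem_Ioc]
      exact ⟨⟨hq2.pos, by omega⟩, hq2, h3⟩
    · right
      have h4 := h3.two_le
      refine ⟨q - 2, ?_, by omega⟩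
      rw [hS, Finset.mem_filter, Finset.mem_Ioc]
      refine ⟨⟨by omega, by omega⟩, h3, ?_⟩
      have e : q - 2 + 2 = q := by omega
      rw [e]; exact hq2
  have h3 := (Finset.card_le_card h2).trans (Finset.card_union_le _ _)
  have h4 : (S.image (fun n => n + 2)).card ≤ S.card := Finset.card_image_le
  have h5 : (((range (Q + 1)).filter Twin).card : ℝ) ≤ 2 * (S.card : ℝ) := by
    have : ((range (Q + 1)).filter Twin).card ≤ 2 * S.card := by omega
    exact_mod_cast this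
  have h6 : (S.card : ℝ) ≤ C * Pool.Agent.H357R2.SI.sg 2 ^ 2 * Q / Real.log Q ^ 2 := by
    rw [hS]
    convert h1
  calc _ ≤ 2 * (S.card : ℝ) := h5
    _ ≤ 2 * (C * Pool.Agent.H357R2.SI.sg 2 ^ 2 * Q / Real.log Q ^ 2) := by linarith
    _ = _ := by ring

theorem result (D : ℕ) (hD : 1 ≤ D) : ∃ c : ℝ, 0 < c ∧ ∃ X₀ : ℝ, ∀ X : ℝ, X₀ ≤ X →
    ∀ M : ℝ, X ≤ M → ∀ r : ℕ, ∃ N : ℕ, M < N ∧ (N : ℝ) ≤ M + X ∧ N ≡ r [MOD D] ∧
      ∀ q p : ℕ, Twin q → p.Prime → (p + q = N ∨ p = N + q) →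
        c * (Real.log X * (Real.log (Real.log X)) ^ 4 *
          Real.log (Real.log (Real.log (Real.log X))) /
            (Real.log (Real.log (Real.log X))) ^ 2) < q := by
  obtain ⟨C, hC, Q₀, h⟩ := twin_count
  exact Pool.Agent.H378R2.PT.least_of_count 2 D hD Twin hC h

end Pool.Agent.Results.MP_c6d112_nt.LeastTwinSummand
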