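import Pool.Agent.H661R4.RM.Final
import Pool.Agent.H661R4.RM.SumTwins

open Finset

namespace Pool.Agent.Results.MP_c6d112_nt.TwinSumResidues

/-- **Every large even number is a sum of two members of almost prime twin pairs, and no residue class
modulo an odd number is forced on the number of prime factors of the first pair.** Let `m > 1` be odd and
`ε > 0`. There are `R` and `δ > 0` such that for every large even `N` and every `c` there are at least
`N ^ (1 - ε)` naturals `p` for which there are `p', q, q'` with `p + q = N`, `p'` one of `p ± 2`, `q'` one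
of `q ± 2`, each of `p, p', q, q'` positive, a product of at most `R` primes, all larger than `N ^ δ`, and
the number of prime factors of `p * p'` not congruent to `c` modulo `m`. -/
theorem result (m : ℕ) (hm : 1 < m) (hodd : Odd m) (ε : ℝ) (hε : 0 < ε) :
    ∃ (R : ℕ) (δ : ℝ), 0 < δ ∧ ∃ N₀ : ℕ, ∀ N : ℕ, N₀ ≤ N → Even N → ∀ c : ℕ,
    (N : ℝ) ^ (1 - ε) ≤ ({p : ℕ | ∃ p' q q' : ℕ, p + q = N ∧
      (p' = p + 2 ∨ p = p' + 2) ∧ (q' = q + 2 ∨ q = q' + 2) ∧
      (∀ v ∈ ({p, p', q, q'} : Set ℕ), 0 < v ∧ ArithmeticFunction.cardFactors v ≤ R ∧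
        ∀ l : ℕ, l.Prime → l ∣ v → (N : ℝ) ^ δ < l) ∧
      ¬ ArithmeticFunction.cardFactors (p * p') ≡ c [MOD m]}.ncard : ℝ) :=
  Pool.Agent.H661R4.RM.sumTwins Pool.Agent.H661R4.RM.final m hm hodd ε hε

end Pool.Agent.Results.MP_c6d112_nt.TwinSumResidues
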